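import Mathlib

set_option autoImplicit false
set_option maxHeartbeats 400000

namespace Pool.Agent.Results.MP_f5f603_al.TwoGood

/-- A good involution of the quandle whose right translations are `s y`, so `x * y = s y x`. -/
def IsGood {R : Type} (s : R → Equiv.Perm R) (ρ : R → R) : Prop :=
  (∀ x, ρ (ρ x) = x) ∧ (∀ x y, ρ (s y x) = s y (ρ x)) ∧ ∀ x y, s (ρ y) x = (s y)⁻¹ x

def tab : ℕ := 681867370496640808748279910189618537443037057861195029129718574453276564319288276316369989950043546460853534747343407262185537074445672749067627285499381427038117892141944630760880358206122827124004685786894240032831832343285455908654684425402367352393656635184213375679653267876730970496626389489965356472090304497353689643900121538850703214494323153038598595727364223760798071060025341791745266083392566917857836664558732976787768794203022120193475465138612136542091996185138749933180771713805128316296814724649685555762587007258579414328356840770158949909578477816150371401481817489068224338125582193494819348117450171458446577297263484147563870783610176245055662742327900369860164163068521189728450558324506257776540065427462172320048334771381193665995383888525922254111911795659741850543580338638775127118004171733371401427297723696710474536441698436980556810400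

def op (x y : Fin 24) : Fin 24 := Fin.ofNat 24 ((tab >>> (5 * (24 * x.val + y.val))) % 32)

def r1 (x : Fin 24) : Fin 24 := Fin.ofNat 24 ([16, 20, 8, 12, 17, 21, 9, 13, 2, 6, 18, 22, 3, 7, 19, 23, 0, 4, 10, 14, 1, 5, 11, 15].getD x.val 0)

def r2 (x : Fin 24) : Fin 24 := Fin.ofNat 24 ([21, 17, 13, 9, 20, 16, 12, 8, 7, 3, 23, 19, 6, 2, 22, 18, 5, 1, 15, 11, 4, 0, 14, 10].getD x.val 0)

theorem h1 : ∀ y x, op (op x y) (r1 y) = x := by decide +kernel
theorem h2 : ∀ y x, op (op x (r1 y)) y = x := by decide +kernel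

def s0 (y : Fin 24) : Equiv.Perm (Fin 24) := ⟨fun x => op x y, fun x => op x (r1 y), h1 y, h2 y⟩

theorem dist : ∀ x y z, op (op x y) z = op (op x z) (op y z) := by decide +kernel

theorem conn : ∀ x : Fin 24, ∃ u v w, op (op (op 0 u) v) w = x := by
  have h : ∀ x : Fin 24, (∃ v ∈ [0, 5, 18, 2, 23], ∃ w, op v w = x) := by decide +kernel
  have h' : ∀ v ∈ [(0 : Fin 24), 5, 18, 2, 23], ∃ u ∈ [(0 : Fin 24), 1], ∃ w, op (op 0 u) w = v := by
    decide +kernel
  intro x
  obtain ⟨v, hv, w, rfl⟩ := h x
  obtain ⟨u, -, t, rfl⟩ := h' v hv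
  exact ⟨u, t, w, rfl⟩

theorem result : ∃ (R : Type) (_ : Finite R) (s : R → Equiv.Perm R),
    (∀ x, s x x = x) ∧ (∀ x y z, s z (s y x) = s (s z y) (s z x)) ∧
    (∀ x y, ∃ g ∈ Subgroup.closure (Set.range s), g x = y) ∧
    (¬ ∀ x y, s y (s y x) = x) ∧
    ∃ ρ₁ ρ₂ : R → R, ρ₁ ≠ ρ₂ ∧ IsGood s ρ₁ ∧ IsGood s ρ₂ := by
  have hm : ∀ y, s0 y ∈ Subgroup.closure (Set.range s0) := fun y => Subgroup.subset_closure ⟨y, rfl⟩
  have h0 : ∀ x, ∃ g ∈ Subgroup.closure (Set.range s0), g 0 = x := by
    intro x
    obtain ⟨u, v, w, h⟩ := conn x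
    exact ⟨s0 w * s0 v * s0 u, mul_mem (mul_mem (hm w) (hm v)) (hm u), h⟩
  refine ⟨Fin 24, inferInstance, s0, ?_, fun x y z => dist x y z, fun x y => ?_, ?_, r1, r2, ?_,
    ⟨?_, ?_, fun _ _ => rfl⟩, ⟨?_, ?_, ?_⟩⟩
  · change ∀ x, op x x = x
    decide +kernel
  · obtain ⟨g, hg, rfl⟩ := h0 x
    obtain ⟨k, hk, rfl⟩ := h0 y
    exact ⟨k * g⁻¹, mul_mem hk (inv_mem hg), by simp⟩
  · change ¬ ∀ x y, op (op x y) y = x
    decide +kernel
  · intro h
    have := congrFun h 0
    revert this
    decide +kernel
  · decide +kernel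
  · change ∀ x y, r1 (op x y) = op (r1 x) y
    decide +kernel
  · decide +kernel
  · change ∀ x y, r2 (op x y) = op (r2 x) y
    decide +kernel
  · change ∀ x y, op x (r2 y) = op x (r1 y)
    decide +kernel

end Pool.Agent.Results.MP_f5f603_al.TwoGood
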